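import Pool.Agent.Helper70.BI.HH.StHA

/-!
# Project BI, stage 7 (H), module CCA: homotopic closed 2-cells, cyclic invariance (helper94)
-/

set_option autoImplicit false

open scoped Topology unitInterval
open Set Pool.Agent.Helper65.Barb Pool.Agent.Helper18.BI
open Pool.Agent.Helper18.FinR (sqr)
open Pool.Agent.Helper18.BI.R (S2)
open Pool.Agent.Helper70.T

namespace Pool.Agent.Helper70.HH

namespace CCA

theorem cont_sqr : Continuous sqr := by
  have h0 : Continuous fun t : Fin 2 → unitInterval => ((t 0 : unitInterval) : ℝ) :=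
    continuous_subtype_val.comp (continuous_apply 0)
  have h1 : Continuous fun t : Fin 2 → unitInterval => ((t 1 : unitInterval) : ℝ) :=
    continuous_subtype_val.comp (continuous_apply 1)
  have s0 := Real.continuous_sin.comp (continuous_const.mul h0 (f := fun _ => Real.pi))
  have s1 := Real.continuous_sin.comp (continuous_const.mul h1 (f := fun _ => Real.pi))
  have c0 := Real.continuous_cos.comp (continuous_const.mul h0 (f := fun _ => Real.pi))
  have c1 := Real.continuous_cos.comp (continuous_const.mul h1 (f := fun _ => Real.pi))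
  unfold sqr
  refine Continuous.prodMk ?_ ?_
  · exact continuous_const.sub ((continuous_const.mul (s0.pow 2)).mul (s1.pow 2))
  · refine Complex.equivRealProdCLM.symm.continuous.comp (Continuous.prodMk ?_ ?_)
    · exact (((continuous_const.mul s0).mul s1).mul c1).neg
    · exact ((continuous_const.mul s0).mul c0).mul (s1.pow 2)

theorem sqr_mem (t : Fin 2 → I) : sqr t ∈ S2 := by
  show (sqr t).1 ^ 2 + (sqr t).2.re ^ 2 + (sqr t).2.im ^ 2 = 1
  simp only [sqr]
  have h0 := Real.sin_sq_add_cos_sq (Real.pi * (t 0 : ℝ))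
  have h1 := Real.sin_sq_add_cos_sq (Real.pi * (t 1 : ℝ))
  have h0' : Real.cos (Real.pi * (t 0 : ℝ)) ^ 2 = 1 - Real.sin (Real.pi * (t 0 : ℝ)) ^ 2 := by
    linarith
  have h1' : Real.cos (Real.pi * (t 1 : ℝ)) ^ 2 = 1 - Real.sin (Real.pi * (t 1 : ℝ)) ^ 2 := by
    linarith
  generalize Real.sin (Real.pi * (t 0 : ℝ)) = a at *
  generalize Real.sin (Real.pi * (t 1 : ℝ)) = b at *
  generalize Real.cos (Real.pi * (t 0 : ℝ)) = A at *
  generalize Real.cos (Real.pi * (t 1 : ℝ)) = B at *
  have e : (1 - 2 * a ^ 2 * b ^ 2) ^ 2 + (-(2 * a * b * B)) ^ 2 + (2 * a * A * b ^ 2) ^ 2 =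
      (1 - 2 * a ^ 2 * b ^ 2) ^ 2 + 4 * a ^ 2 * b ^ 2 * B ^ 2 + 4 * a ^ 2 * b ^ 4 * A ^ 2 := by ring
  rw [e, h0', h1']
  ring

theorem bd_cases {t : Fin 2 → I} (h : t ∈ Cube.boundary (Fin 2)) :
    t 0 = 0 ∨ t 0 = 1 ∨ t 1 = 0 ∨ t 1 = 1 := by
  obtain ⟨i, hi⟩ := h
  fin_cases i
  · rcases hi with hi | hi
    · exact Or.inl hi
    · exact Or.inr (Or.inl hi)
  · rcases hi with hi | hi
    · exact Or.inr (Or.inr (Or.inl hi))
    · exact Or.inr (Or.inr (Or.inr hi))

theorem sqr_bd {t : Fin 2 → I} (ht : t ∈ Cube.boundary (Fin 2)) : sqr t = (1, 0) := by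
  unfold sqr
  rcases bd_cases ht with h | h | h | h <;> rw [h]
  · simp
    rfl
  · simp
    rfl
  · simp
    rfl
  · simp
    rfl

theorem lon_le (m : R3) : lon m / (2 * Real.pi) ∈ Icc (0 : ℝ) 1 := by
  have hpi := Real.pi_pos
  have h1 := Complex.neg_pi_lt_arg m.2
  have h2 := Complex.arg_le_pi m.2
  have h3 : 0 ≤ lon m ∧ lon m ≤ 2 * Real.pi := by
    unfold lon
    split_ifs with h
    · exact ⟨h, by linarith⟩
    · exact ⟨by linarith, by linarith [not_le.1 h]⟩
  refine ⟨div_nonneg h3.1 (by linarith), ?_⟩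
  rw [div_le_one (by linarith)]
  exact h3.2

/-- a family of spheres given in polar coordinates is a free homotopy -/
theorem hfree (hPQ : StPQ) {X : Type} [TopologicalSpace X] (Γ : I × ℝ × ℝ → X)
    (hc : Continuous Γ) (x y : X) (h1 : ∀ z, ∀ v ∈ Icc (0 : ℝ) 1, Γ (z, 0, v) = Γ (z, 1, v))
    (h2 : ∀ z, ∀ ρ ∈ Icc (0 : ℝ) 1, Γ (z, ρ, 0) = x)
    (h3 : ∀ z, ∀ ρ ∈ Icc (0 : ℝ) 1, Γ (z, ρ, 1) = y) :
    Hfree (fun t => sph2 (fun q => Γ (0, q)) (sqr t)) (fun t => sph2 (fun q => Γ (1, q)) (sqr t)) := by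
  have h00 : (0 : ℝ) ∈ Icc (0 : ℝ) 1 := ⟨le_rfl, zero_le_one⟩
  have hk := (hPQ X I Γ hc.continuousOn h1 (fun z ρ hρ => by rw [h2 z ρ hρ, h2 z 0 h00])
    (fun z ρ hρ => by rw [h3 z ρ hρ, h3 z 0 h00])).1
  refine ⟨fun z => sph2 (fun q => Γ (projIcc (0 : ℝ) 1 zero_le_one z.1, q)) (sqr z.2), ?_, ?_, ?_, ?_⟩
  · have hm : Continuous fun z : ℝ × (Fin 2 → I) =>
        ((projIcc (0 : ℝ) 1 zero_le_one z.1, sqr z.2) : I × R3) :=
      (continuous_projIcc.comp continuous_fst).prodMk (cont_sqr.comp continuous_snd)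
    exact (hk.comp_continuous hm fun z => ⟨mem_univ _, sqr_mem _⟩).continuousOn
  · intro t
    have : projIcc (0 : ℝ) 1 zero_le_one 0 = 0 := projIcc_left _
    simp only [this]
  · intro t
    have : projIcc (0 : ℝ) 1 zero_le_one 1 = 1 := projIcc_right _
    simp only [this]
  · intro u _ t ht t' ht'
    simp only [sqr_bd ht, sqr_bd ht']

theorem pr0 : projIcc (0 : ℝ) 1 zero_le_one 0 = 0 := projIcc_left _

theorem pr1 : projIcc (0 : ℝ) 1 zero_le_one 1 = 1 := projIcc_right _

/-- homotopic closed 2-cells -/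
theorem part1 (hPQ : StPQ) {X : Type} [TopologicalSpace X] {x y : X} {p : Path x y}
    (γ γ' : Path p p) (h : γ.Homotopic γ') : Hfree (sphP γ) (sphP γ') := by
  obtain ⟨K⟩ := h
  have hc : Continuous fun z : I × ℝ × ℝ =>
      K (z.1, projIcc (0 : ℝ) 1 zero_le_one z.2.1) (projIcc (0 : ℝ) 1 zero_le_one z.2.2) := by
    have e1 : Continuous fun z : I × ℝ × ℝ => K (z.1, projIcc (0 : ℝ) 1 zero_le_one z.2.1) :=
      K.continuous.comp (continuous_fst.prodMk (continuous_projIcc.comp
        (continuous_fst.comp continuous_snd)))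
    have e2 : Continuous fun z : I × ℝ × ℝ => projIcc (0 : ℝ) 1 zero_le_one z.2.2 :=
      continuous_projIcc.comp (continuous_snd.comp continuous_snd)
    exact e1.eval e2
  have key := hfree hPQ (fun z : I × ℝ × ℝ =>
      K (z.1, projIcc (0 : ℝ) 1 zero_le_one z.2.1) (projIcc (0 : ℝ) 1 zero_le_one z.2.2)) hc x y
    (by
      intro z v _
      simp only [pr0, pr1]
      rw [Path.Homotopy.source, Path.Homotopy.target])
    (by
      intro z ρ _
      simp only [pr0]
      exact Path.source _)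
    (by
      intro z ρ _
      simp only [pr1]
      exact Path.target _)
  have e0 : (fun t : Fin 2 → I => sph2 (fun q : ℝ × ℝ =>
      K ((0 : I), projIcc (0 : ℝ) 1 zero_le_one q.1) (projIcc (0 : ℝ) 1 zero_le_one q.2)) (sqr t)) =
      sphP γ := by
    funext t
    simp only [sphP, sph2]
    rw [K.apply_zero]
    rfl
  have e1 : (fun t : Fin 2 → I => sph2 (fun q : ℝ × ℝ =>
      K ((1 : I), projIcc (0 : ℝ) 1 zero_le_one q.1) (projIcc (0 : ℝ) 1 zero_le_one q.2)) (sqr t)) =
      sphP γ' := by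
    funext t
    simp only [sphP, sph2]
    rw [K.apply_one]
    rfl
  rw [← e0, ← e1]
  exact key

/-- the periodic extension -/
noncomputable def per {Y : Type} [TopologicalSpace Y] {a : Y} (γ : Path a a) (s : ℝ) : Y :=
  if s ≤ 1 then γ.extend s else γ.extend (s - 1)

theorem cont_per {Y : Type} [TopologicalSpace Y] {a : Y} (γ : Path a a) : Continuous (per γ) := by
  unfold per
  refine Continuous.if_le γ.continuous_extend (γ.continuous_extend.comp (by fun_prop))
    continuous_id continuous_const ?_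
  intro s hs
  have : s = 1 := hs
  subst this
  rw [sub_self, Path.extend_zero, Path.extend_one]

theorem per_add {Y : Type} [TopologicalSpace Y] {a : Y} (γ : Path a a) {s : ℝ}
    (h0 : 0 ≤ s) (h1 : s ≤ 1) : per γ s = per γ (1 + s) := by
  unfold per
  rw [if_pos h1]
  rcases eq_or_lt_of_le h0 with h | h
  · subst h
    rw [add_zero, if_pos le_rfl, Path.extend_zero, Path.extend_one]
  · rw [if_neg (by linarith)]
    congr 1
    ring

/-- cyclic invariance -/
theorem part2 (hPQ : StPQ) {X : Type} [TopologicalSpace X] {x y : X} {p q : Path x y}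
    (γ : Path p q) (δ : Path q p) : Hfree (sphP (γ.trans δ)) (sphP (δ.trans γ)) := by
  have hc : Continuous fun z : I × ℝ × ℝ =>
      per (γ.trans δ) (z.2.1 + (z.1 : ℝ) / 2) (projIcc (0 : ℝ) 1 zero_le_one z.2.2) := by
    have e1 : Continuous fun z : I × ℝ × ℝ => per (γ.trans δ) (z.2.1 + (z.1 : ℝ) / 2) :=
      (cont_per (γ.trans δ)).comp (by fun_prop)
    have e2 : Continuous fun z : I × ℝ × ℝ => projIcc (0 : ℝ) 1 zero_le_one z.2.2 :=
      continuous_projIcc.comp (continuous_snd.comp continuous_snd)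
    exact e1.eval e2
  have key := hfree hPQ (fun z : I × ℝ × ℝ =>
      per (γ.trans δ) (z.2.1 + (z.1 : ℝ) / 2) (projIcc (0 : ℝ) 1 zero_le_one z.2.2)) hc x y
    (by
      intro z v _
      have hz0 := z.2.1
      have hz1 := z.2.2
      show per (γ.trans δ) (0 + (z : ℝ) / 2) _ = per (γ.trans δ) (1 + (z : ℝ) / 2) _
      rw [zero_add, per_add _ (by linarith) (by linarith)])
    (by
      intro z ρ _
      simp only [pr0]
      exact Path.source _)
    (by
      intro z ρ _
      simp only [pr1]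
      exact Path.target _)
  have e0 : (fun t : Fin 2 → I => sph2 (fun r : ℝ × ℝ =>
      per (γ.trans δ) (r.1 + ((0 : I) : ℝ) / 2) (projIcc (0 : ℝ) 1 zero_le_one r.2)) (sqr t)) =
      sphP (γ.trans δ) := by
    funext t
    simp only [sphP, sph2]
    have h := lon_le (sqr t)
    generalize lon (sqr t) / (2 * Real.pi) = ρ at h ⊢
    rw [Icc.coe_zero, zero_div, add_zero]
    unfold per
    rw [if_pos h.2]
    rfl
  have e1 : (fun t : Fin 2 → I => sph2 (fun r : ℝ × ℝ =>
      per (γ.trans δ) (r.1 + ((1 : I) : ℝ) / 2) (projIcc (0 : ℝ) 1 zero_le_one r.2)) (sqr t)) =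
      sphP (δ.trans γ) := by
    funext t
    simp only [sphP, sph2]
    have h := lon_le (sqr t)
    generalize lon (sqr t) / (2 * Real.pi) = ρ at h ⊢
    have e : per (γ.trans δ) (ρ + ((1 : I) : ℝ) / 2) = (δ.trans γ).extend ρ := by
      rw [Icc.coe_one]
      unfold per
      split_ifs with h1
      · have h2 : ρ ≤ 1 / 2 := by linarith
        rw [Path.extend_trans_of_half_le _ _ (by linarith [h.1] : 1 / 2 ≤ ρ + 1 / 2),
          Path.extend_trans_of_le_half _ _ h2]
        congr 1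
        ring
      · have h2 : 1 / 2 ≤ ρ := by linarith [not_le.1 h1]
        rw [Path.extend_trans_of_le_half _ _ (by linarith [h.2] : ρ + 1 / 2 - 1 ≤ 1 / 2),
          Path.extend_trans_of_half_le _ _ h2]
        congr 1
        ring
    rw [e]
    rfl
  rw [← e0, ← e1]
  exact key

end CCA

theorem m_CCA (hPQ : StPQ) : StCCA := by
  intro X _ y₀ sq hsq
  refine ⟨fun x y p γ γ' h => hsq.free _ _ (CCA.part1 hPQ γ γ' h), ?_⟩
  intro x y p q γ δ
  exact hsq.free _ _ (CCA.part2 hPQ γ δ)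

end Pool.Agent.Helper70.HH
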